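import Pool.Agent.Y969.GP.Def

set_option autoImplicit false

/-!
Project GP, job MB, part 1: the change of variables `c ↦ (c_j - c_l)_{l ≠ j}` and the mean square of
zeta on `1 ≤ |w| ≤ T`.
-/

namespace Pool.Agent.Y258.GPMB

open Complex Filter Topology MeasureTheory Set
open Pool.Agent.Y969.GP

noncomputable section

/-- the indices different from `j` -/
def em {n : ℕ} (j : Fin (n + 1)) (l : Fin n) : Fin (n + 1) := if l.succ = j then 0 else l.succ

lemma em_ne {n : ℕ} (j : Fin (n + 1)) (l : Fin n) : em j l ≠ j := by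
  unfold em
  split_ifs with h
  · rw [← h]; exact (Fin.succ_ne_zero l).symm
  · exact h

lemma em_inj {n : ℕ} (j : Fin (n + 1)) : Function.Injective (em j) := by
  intro l m h
  unfold em at h
  split_ifs at h with h1 h2 h2
  · rw [← h2] at h1; exact Fin.succ_injective _ h1
  · exact absurd h.symm (Fin.succ_ne_zero m)
  · exact absurd h (Fin.succ_ne_zero l)
  · exact Fin.succ_injective _ h

lemma prod_em {n : ℕ} (j : Fin (n + 1)) (F : Fin (n + 1) → ℝ) :
    ∏ l, F (em j l) = ∏ l ∈ Finset.univ.erase j, F l := by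
  refine Finset.prod_nbij (em j) ?_ ?_ ?_ (fun _ _ => rfl)
  · intro l _
    simp [em_ne]
  · exact (em_inj j).injOn
  · intro m hm
    have hm' : m ≠ j := by simpa using hm
    rcases Fin.eq_zero_or_eq_succ m with h | ⟨m', h⟩
    · rcases Fin.eq_zero_or_eq_succ j with hj | ⟨j', hj⟩
      · exact absurd (h.trans hj.symm) hm'
      · exact ⟨j', by simp, by rw [em, if_pos hj.symm, h]⟩
    · exact ⟨m', by simp, by rw [em, if_neg (by rw [← h]; exact hm'), h]⟩

lemma cc_zero {n : ℕ} (c : Fin n → ℝ) : cc c 0 = 0 := by simp [cc]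

lemma cc_succ {n : ℕ} (c : Fin n → ℝ) (l : Fin n) : cc c l.succ = c l := by simp [cc]

/-- the linear involution `c ↦ (c_j - c_l)_{l ≠ j}` -/
def LL {n : ℕ} (j : Fin (n + 1)) : (Fin n → ℝ) →ₗ[ℝ] (Fin n → ℝ) where
  toFun c l := cc c j - cc c (em j l)
  map_add' c d := by
    have h : ∀ i, cc (c + d) i = cc c i + cc d i := by
      intro i
      rcases Fin.eq_zero_or_eq_succ i with h | ⟨i', h⟩
      · rw [h, cc_zero, cc_zero, cc_zero, add_zero]
      · rw [h, cc_succ, cc_succ, cc_succ, Pi.add_apply]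
    funext l
    simp only [h, Pi.add_apply]
    ring
  map_smul' r c := by
    have h : ∀ i, cc (r • c) i = r * cc c i := by
      intro i
      rcases Fin.eq_zero_or_eq_succ i with h | ⟨i', h⟩
      · rw [h, cc_zero, cc_zero, mul_zero]
      · rw [h, cc_succ, cc_succ, Pi.smul_apply, smul_eq_mul]
    funext l
    simp only [h, Pi.smul_apply, smul_eq_mul, RingHom.id_apply]
    ring

lemma LL_apply {n : ℕ} (j : Fin (n + 1)) (c : Fin n → ℝ) (l : Fin n) :
    LL j c l = cc c j - cc c (em j l) := rfl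

lemma LL_LL {n : ℕ} (j : Fin (n + 1)) (c : Fin n → ℝ) : LL j (LL j c) = c := by
  funext l
  rcases Fin.eq_zero_or_eq_succ j with hj | ⟨j', hj⟩
  · subst hj
    have h : ∀ m : Fin n, em 0 m = m.succ := fun m => if_neg (Fin.succ_ne_zero m)
    rw [LL_apply, h, cc_zero, cc_succ, LL_apply, h, cc_zero, cc_succ]
    ring
  · subst hj
    have h1 : em j'.succ j' = 0 := if_pos rfl
    have h2 : LL j'.succ c j' = c j' := by rw [LL_apply, h1, cc_zero, cc_succ, sub_zero]
    by_cases hl : l = j'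
    · subst hl
      rw [LL_apply, h1, cc_zero, cc_succ, sub_zero, h2]
    · have h3 : em j'.succ l = l.succ := if_neg (fun h => hl (Fin.succ_injective _ h))
      rw [LL_apply, h3, cc_succ, cc_succ, h2, LL_apply, h3, cc_succ, cc_succ]
      ring

lemma LL_det {n : ℕ} (j : Fin (n + 1)) : |LinearMap.det (LL (n := n) j)| = 1 := by
  have h : (LL (n := n) j).comp (LL j) = LinearMap.id := LinearMap.ext (LL_LL j)
  have h2 : LinearMap.det (LL (n := n) j) * LinearMap.det (LL (n := n) j) = 1 := by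
    rw [← LinearMap.det_comp, h, LinearMap.det_id]
  rcases mul_self_eq_one_iff.1 h2 with h3 | h3 <;> rw [h3] <;> simp

lemma LL_mp {n : ℕ} (j : Fin (n + 1)) : MeasurePreserving (LL (n := n) j) volume volume := by
  refine ⟨(LL j).continuous_of_finiteDimensional.measurable, ?_⟩
  have h := LL_det (n := n) j
  have h0 : LinearMap.det (LL (n := n) j) ≠ 0 := by
    intro h1; rw [h1] at h; simp at h
  rw [Real.map_linearMap_volume_pi_eq_smul_volume_pi h0, abs_inv, h]
  simp

lemma LL_me {n : ℕ} (j : Fin (n + 1)) : MeasurableEmbedding (LL (n := n) j) := by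
  have hm : Measurable (LL (n := n) j) := (LL j).continuous_of_finiteDimensional.measurable
  exact (MeasurableEquiv.mk ⟨LL j, LL j, LL_LL j, LL_LL j⟩ hm hm).measurableEmbedding

theorem int_prod {n : ℕ} (j : Fin (n + 1)) (g : Fin (n + 1) → ℝ → ℝ) (hg : ∀ l, Integrable (g l)) :
    Integrable (fun c : Fin n → ℝ => ∏ l ∈ Finset.univ.erase j, g l (cc c j - cc c l)) ∧
    ∫ c : Fin n → ℝ, ∏ l ∈ Finset.univ.erase j, g l (cc c j - cc c l) =
      ∏ l ∈ Finset.univ.erase j, ∫ v, g l v := by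
  have e : (fun c : Fin n → ℝ => ∏ l ∈ Finset.univ.erase j, g l (cc c j - cc c l)) =
      (fun d : Fin n → ℝ => ∏ l, g (em j l) (d l)) ∘ LL j := by
    funext c
    simp only [Function.comp, LL_apply]
    rw [prod_em j (fun l => g l (cc c j - cc c l))]
  have hi : Integrable (fun d : Fin n → ℝ => ∏ l, g (em j l) (d l)) :=
    Integrable.fintype_prod (fun l => hg (em j l))
  constructor
  · rw [e]
    exact (LL_mp j).integrable_comp_of_integrable hi
  · calc ∫ c : Fin n → ℝ, ∏ l ∈ Finset.univ.erase j, g l (cc c j - cc c l)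
        = ∫ c : Fin n → ℝ, (fun d : Fin n → ℝ => ∏ l, g (em j l) (d l)) (LL j c) := by
          exact congrArg (fun f : (Fin n → ℝ) → ℝ => ∫ c, f c) e
      _ = ∫ d : Fin n → ℝ, ∏ l, g (em j l) (d l) :=
          (LL_mp j).integral_comp (LL_me j) (fun d : Fin n → ℝ => ∏ l, g (em j l) (d l))
      _ = ∏ l, ∫ v, g (em j l) v :=
          integral_fintype_prod_volume_eq_prod (fun l => g (em j l))
      _ = _ := prod_em j (fun l => ∫ v, g l v)

/-- the square of zeta on the vertical line with abscissa `x`, cut off to `1 ≤ |w| ≤ T` -/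
def ph (x T : ℝ) : ℝ → ℝ :=
  (Icc 1 T).indicator (fun w => ‖riemannZeta (x + I * w)‖ ^ 2) +
    (Icc (-T) (-1)).indicator (fun w => ‖riemannZeta (x + I * w)‖ ^ 2)

lemma zeta_cont (x : ℝ) : ContinuousOn (fun w : ℝ => ‖riemannZeta (x + I * w)‖ ^ 2) {w | w ≠ 0} := by
  intro w hw
  have h1 : (x : ℂ) + I * w ≠ 1 := by
    intro h
    have h2 := congrArg Complex.im h
    simp at h2
    exact hw h2
  have h3 : ContinuousAt (fun w : ℝ => (x : ℂ) + I * w) w := by fun_prop
  have h4 : ContinuousAt (fun w : ℝ => riemannZeta (x + I * w)) w :=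
    ContinuousAt.comp (f := fun w : ℝ => (x : ℂ) + I * w) (x := w)
      (differentiableAt_riemannZeta h1).continuousAt h3
  exact (h4.norm.pow 2).continuousWithinAt

lemma ph_nonneg (x T w : ℝ) : 0 ≤ ph x T w := by
  unfold ph
  exact add_nonneg (indicator_nonneg (fun _ _ => by positivity) _)
    (indicator_nonneg (fun _ _ => by positivity) _)

lemma le_ph (x T w : ℝ) (h1 : 1 ≤ |w|) (h2 : |w| ≤ T) :
    ‖riemannZeta (x + I * w)‖ ^ 2 ≤ ph x T w := by
  unfold ph
  rcases le_total 0 w with h | h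
  · rw [abs_of_nonneg h] at h1 h2
    have : w ∈ Icc 1 T := ⟨h1, h2⟩
    simp only [Pi.add_apply, indicator_of_mem this]
    exact le_add_of_nonneg_right (indicator_nonneg (fun _ _ => by positivity) _)
  · rw [abs_of_nonpos h] at h1 h2
    have : w ∈ Icc (-T) (-1) := ⟨by linarith, by linarith⟩
    simp only [Pi.add_apply, indicator_of_mem this]
    exact le_add_of_nonneg_left (indicator_nonneg (fun _ _ => by positivity) _)

lemma ph_int1 (x T : ℝ) :
    Integrable ((Icc 1 T).indicator (fun w : ℝ => ‖riemannZeta (x + I * w)‖ ^ 2)) := by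
  rw [integrable_indicator_iff measurableSet_Icc]
  exact ContinuousOn.integrableOn_compact isCompact_Icc
    ((zeta_cont x).mono fun w hw => (by linarith [hw.1] : (0:ℝ) < w).ne')

lemma ph_int2 (x T : ℝ) :
    Integrable ((Icc (-T) (-1)).indicator (fun w : ℝ => ‖riemannZeta (x + I * w)‖ ^ 2)) := by
  rw [integrable_indicator_iff measurableSet_Icc]
  exact ContinuousOn.integrableOn_compact isCompact_Icc
    ((zeta_cont x).mono fun w hw => (by linarith [hw.2] : w < 0).ne)

lemma ph_int (x T : ℝ) : Integrable (ph x T) := (ph_int1 x T).add (ph_int2 x T)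

lemma ph_le (x T : ℝ) (hT : 1 ≤ T) :
    ∫ w, ph x T w = 2 * ∫ v in (1 : ℝ)..T, ‖riemannZeta (x + I * v)‖ ^ 2 := by
  have h1 : ∫ w, (Icc 1 T).indicator (fun w : ℝ => ‖riemannZeta (x + I * w)‖ ^ 2) w =
      ∫ v in (1 : ℝ)..T, ‖riemannZeta (x + I * v)‖ ^ 2 := by
    rw [integral_indicator measurableSet_Icc, intervalIntegral.integral_of_le hT,
      integral_Icc_eq_integral_Ioc]
  have h2 : ∫ w, (Icc (-T) (-1)).indicator (fun w : ℝ => ‖riemannZeta (x + I * w)‖ ^ 2) w =
      ∫ v in (1 : ℝ)..T, ‖riemannZeta (x + I * v)‖ ^ 2 := by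
    rw [← h1, ← integral_neg_eq_self]
    congr 1
    funext w
    by_cases hw : w ∈ Icc 1 T
    · have hw' : -w ∈ Icc (-T) (-1) := ⟨by linarith [hw.2], by linarith [hw.1]⟩
      rw [indicator_of_mem hw, indicator_of_mem hw']
      have e : (x : ℂ) + I * ((-w : ℝ) : ℂ) = (starRingEnd ℂ) ((x : ℂ) + I * w) := by
        simp
      rw [e, riemannZeta_conj, RCLike.norm_conj]
    · have hw' : -w ∉ Icc (-T) (-1) := fun h => hw ⟨by linarith [h.2], by linarith [h.1]⟩
      rw [indicator_of_notMem hw, indicator_of_notMem hw']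
  have h3 : ∫ w, ph x T w =
      (∫ w, (Icc 1 T).indicator (fun w : ℝ => ‖riemannZeta (x + I * w)‖ ^ 2) w) +
      ∫ w, (Icc (-T) (-1)).indicator (fun w : ℝ => ‖riemannZeta (x + I * w)‖ ^ 2) w :=
    integral_add (ph_int1 x T) (ph_int2 x T)
  rw [h3, h1, h2]
  ring

/-- the majorant of a pair -/
def gg (x y T : ℝ) (v : ℝ) : ℝ := (ph x T (y + v) + ph x T (y - v)) / 2

lemma gg_nonneg (x y T v : ℝ) : 0 ≤ gg x y T v :=
  div_nonneg (add_nonneg (ph_nonneg _ _ _) (ph_nonneg _ _ _)) (by norm_num)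

lemma gg_int (x y T : ℝ) : Integrable (gg x y T) :=
  (((ph_int x T).comp_add_left y).add ((ph_int x T).comp_sub_left y)).div_const 2

lemma gg_integral (x y T : ℝ) : ∫ v, gg x y T v = ∫ w, ph x T w := by
  unfold gg
  rw [integral_div, integral_add ((ph_int x T).comp_add_left y) ((ph_int x T).comp_sub_left y),
    integral_add_left_eq_self (fun w => ph x T w) y, integral_sub_left_eq_self (fun w => ph x T w)]
  ring

lemma le_gg (x y T v : ℝ) (h1 : 1 ≤ |y + v|) (h2 : |y + v| ≤ T) (h3 : 1 ≤ |y - v|)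
    (h4 : |y - v| ≤ T) :
    ‖riemannZeta (x + I * ((y + v : ℝ) : ℂ))‖ * ‖riemannZeta (x + I * ((y - v : ℝ) : ℂ))‖ ≤
      gg x y T v := by
  have h5 := le_ph x T (y + v) h1 h2
  have h6 := le_ph x T (y - v) h3 h4
  unfold gg
  nlinarith [sq_nonneg (‖riemannZeta (x + I * ((y + v : ℝ) : ℂ))‖ -
    ‖riemannZeta (x + I * ((y - v : ℝ) : ℂ))‖)]

end

end Pool.Agent.Y258.GPMB
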