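import Pool.Agent.Y969.GP.Def2
import Pool.Agent.Y258.GP.MB1

set_option autoImplicit false

/-!
Project GP, job MB: mean value of `Ps` over the separated shifts.
-/

namespace Pool.Agent.Y258.GPMB

open Complex Filter Topology MeasureTheory Set
open Pool.Agent.Y969.GP
open Pool.Agent.TH612.CF (FH)

noncomputable section

lemma ev_log (A : ℝ) (N : ℕ) (η : ℝ) (hη : 0 < η) :
    ∀ᶠ T : ℝ in atTop, A * (1 + Real.log T) ^ N ≤ T ^ η := by
  have h1 := isLittleO_log_rpow_rpow_atTop (N : ℝ) hη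
  have hc : (0:ℝ) < ((|A| + 1) * 2 ^ N)⁻¹ := by positivity
  have h2 := h1.bound hc
  filter_upwards [h2, eventually_ge_atTop (Real.exp 1)] with T hT h3
  have hT0 : 0 < T := lt_of_lt_of_le (Real.exp_pos 1) h3
  have hl : 1 ≤ Real.log T := by
    rw [Real.le_log_iff_exp_le hT0]; exact h3
  rw [Real.rpow_natCast, Real.norm_of_nonneg (by positivity), Real.norm_of_nonneg (by positivity)]
    at hT
  have h4 : (1 + Real.log T) ^ N ≤ 2 ^ N * Real.log T ^ N := by
    rw [← mul_pow]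
    exact pow_le_pow_left₀ (by linarith) (by linarith) N
  calc A * (1 + Real.log T) ^ N ≤ (|A| + 1) * (2 ^ N * Real.log T ^ N) := by
        refine mul_le_mul (by linarith [le_abs_self A]) h4 (by positivity) (by positivity)
    _ ≤ (|A| + 1) * (2 ^ N * (((|A| + 1) * 2 ^ N)⁻¹ * T ^ η)) := by gcongr
    _ = T ^ η := by field_simp

lemma cc_sep {n : ℕ} {a T : ℝ} {c : Fin n → ℝ} (ha : 0 ≤ a) (hc : c ∈ Gd n a T) (i l : Fin (n + 1))
    (h : i ≠ l) : a ≤ |cc c i - cc c l| ∧ |cc c i - cc c l| ≤ T := by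
  obtain ⟨h1, h2⟩ := hc
  rcases Fin.eq_zero_or_eq_succ i with hi | ⟨i', hi⟩ <;>
    rcases Fin.eq_zero_or_eq_succ l with hl | ⟨l', hl⟩
  · exact absurd (hi.trans hl.symm) h
  · rw [hi, hl, cc_zero, cc_succ, zero_sub, abs_neg, abs_of_nonneg (ha.trans (h1 l').1)]
    exact h1 l'
  · rw [hi, hl, cc_zero, cc_succ, sub_zero, abs_of_nonneg (ha.trans (h1 i').1)]
    exact h1 i'
  · rw [hi, hl, cc_succ, cc_succ]
    refine ⟨h2 i' l' (fun e => h (by rw [hi, hl, e])), ?_⟩
    rw [abs_le]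
    constructor <;> linarith [(h1 i').1, (h1 i').2, (h1 l').1, (h1 l').2]

lemma Gd_meas (n : ℕ) (a T : ℝ) : MeasurableSet (Gd n a T) := by
  have h : IsClosed (Gd n a T) := by
    have e : Gd n a T = (⋂ j, {c : Fin n → ℝ | a ≤ c j} ∩ {c | c j ≤ T}) ∩
        ⋂ i, ⋂ j, ⋂ _ : i ≠ j, {c | a ≤ |c i - c j|} := by
      ext c
      simp [Gd]
    rw [e]
    refine IsClosed.inter (isClosed_iInter fun j => IsClosed.inter ?_ ?_)
      (isClosed_iInter fun i => isClosed_iInter fun j => isClosed_iInter fun _ => ?_)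
    · exact isClosed_le continuous_const (continuous_apply j)
    · exact isClosed_le (continuous_apply j) continuous_const
    · exact isClosed_le continuous_const ((continuous_apply i).sub (continuous_apply j)).abs
  exact h.measurableSet

/-- the combinatorics of the double product -/
lemma pair_prod {n : ℕ} (j : Fin (n + 1)) (f : Fin (n + 1) → Fin (n + 1) → ℝ) (G : Fin (n + 1) → ℝ)
    (M : ℝ) (hM : 1 ≤ M) (h0 : ∀ i l, 0 ≤ f i l)
    (h1 : ∀ i l, i ≠ j → l ≠ j → i ≠ l → f i l ≤ M)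
    (h2 : ∀ l, l ≠ j → f j l * f l j ≤ G l) :
    ∏ i, ∏ l ∈ Finset.univ.erase i, f i l ≤ (M ^ (n + 1)) ^ n * ∏ l ∈ Finset.univ.erase j, G l := by
  have h3 : ∀ i ∈ Finset.univ.erase j, ∏ l ∈ Finset.univ.erase i, f i l ≤ f i j * M ^ (n + 1) := by
    intro i hi
    have hij : i ≠ j := by simpa using hi
    rw [← Finset.mul_prod_erase (Finset.univ.erase i) (f i)
      (show j ∈ Finset.univ.erase i by simpa using hij.symm)]
    refine mul_le_mul_of_nonneg_left ?_ (h0 i j)
    calc ∏ l ∈ (Finset.univ.erase i).erase j, f i l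
        ≤ ∏ _l ∈ (Finset.univ.erase i).erase j, M := by
          refine Finset.prod_le_prod (fun l _ => h0 i l) (fun l hl => ?_)
          have hl1 : l ≠ j := (Finset.mem_erase.1 hl).1
          have hl2 : l ≠ i := (Finset.mem_erase.1 (Finset.mem_erase.1 hl).2).1
          exact h1 i l hij hl1 hl2.symm
      _ = M ^ ((Finset.univ.erase i).erase j).card := by rw [Finset.prod_const]
      _ ≤ M ^ (n + 1) := by
          refine pow_le_pow_right₀ hM ?_
          calc _ ≤ (Finset.univ : Finset (Fin (n + 1))).card :=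
                Finset.card_le_card (fun x _ => Finset.mem_univ x)
            _ = n + 1 := by simp
  rw [← Finset.mul_prod_erase Finset.univ (fun i => ∏ l ∈ Finset.univ.erase i, f i l)
    (Finset.mem_univ j)]
  calc (∏ l ∈ Finset.univ.erase j, f j l) * ∏ i ∈ Finset.univ.erase j,
        ∏ l ∈ Finset.univ.erase i, f i l
      ≤ (∏ l ∈ Finset.univ.erase j, f j l) * ∏ i ∈ Finset.univ.erase j, (f i j * M ^ (n + 1)) := by
        refine mul_le_mul_of_nonneg_left ?_ (Finset.prod_nonneg fun l _ => h0 j l)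
        exact Finset.prod_le_prod (fun i _ => Finset.prod_nonneg fun l _ => h0 i l) h3
    _ = (M ^ (n + 1)) ^ n * ∏ l ∈ Finset.univ.erase j, (f j l * f l j) := by
        rw [Finset.prod_mul_distrib, Finset.prod_const, Finset.card_erase_of_mem (Finset.mem_univ j),
          Finset.card_univ, Fintype.card_fin, Finset.prod_mul_distrib]
        simp only [Nat.add_sub_cancel]
        ring
    _ ≤ _ := by
        refine mul_le_mul_of_nonneg_left ?_ (by positivity)
        refine Finset.prod_le_prod (fun l _ => mul_nonneg (h0 _ _) (h0 _ _)) (fun l hl => ?_)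
        exact h2 l (by simpa using hl)

theorem t_MB (h1 : S_FB) (h2 : S_ZL) (h3 : S_ZP) : S_MB := by
  intro n
  refine ⟨3 * (((n : ℝ) + 1) * n) + n + 1, by positivity, fun η hη hη' => ?_⟩
  obtain ⟨C1, hC1, hF⟩ := h1 (n + 1) (1 / 2 - 2 * η) η hη.le (by linarith) (by linarith)
    (by linarith)
  obtain ⟨C4, hC4, hL⟩ := h2 η hη
  obtain ⟨hP1, C2, hC2, hZ⟩ := h3
  obtain ⟨C3, hC3, hP⟩ := hP1 η hη (by linarith)
  clear h1 h2 hP1
  have hev : ∀ᶠ T : ℝ in atTop, 2 ≤ T ∧ 2 * Real.log T + 1 ≤ T ^ (1 / 2 : ℝ) ∧ 2 * Real.log T ≤ T ∧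
      (C1 * (C2 + 1) ^ (n + 1) * (2 * (C3 + 1)) ^ ((n + 1) * n) * (8 * C4) ^ n) *
        (1 + Real.log T) ^ (4 * (n + 1)) ≤ T ^ η := by
    filter_upwards [eventually_ge_atTop (2:ℝ), ev_log 2 1 (1 / 2) (by norm_num), ev_log 2 1 1
      (by norm_num), ev_log (C1 * (C2 + 1) ^ (n + 1) * (2 * (C3 + 1)) ^ ((n + 1) * n) * (8 * C4) ^ n)
      (4 * (n + 1)) η hη] with T e1 e2 e3 e4
    refine ⟨e1, ?_, ?_, e4⟩
    · linarith
    · rw [Real.rpow_one] at e3
      linarith
  obtain ⟨T0, hT0⟩ := Filter.eventually_atTop.1 hev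
  refine ⟨max T0 2, le_max_right _ _, fun a T hT ha1 ha2 j s hs => ?_⟩
  obtain ⟨hT2, hlog1, hlog2, hfin⟩ := hT0 T ((le_max_left _ _).trans hT)
  clear hev hT0
  obtain ⟨hs1, hs2, hs3, hs4⟩ := hs
  have hTpos : (0:ℝ) < T := by linarith
  have hlog0 : 0 ≤ Real.log T := Real.log_nonneg (by linarith)
  have ha : 2 * Real.log T + 1 ≤ a := hlog1.trans ha1
  have ha0 : 0 ≤ a := by linarith
  -- real parts
  have hre : ∀ i, |(s i).re| ≤ 1 / 2 - 2 * η := by
    intro i
    by_cases h : i = j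
    · rw [h, abs_le]; constructor <;> linarith
    · exact (hs2 i h).trans (by linarith)
  have hFs : ∀ c : Fin n → ℝ, ‖FH (av c s) (bv c s)‖ ≤ C1 := by
    intro c
    apply hF j
    have e1 : ∀ i, (av c s i).im = -(s i).re := fun i => by simp [av]
    have e2 : ∀ i, (bv c s i).im = (s i).re := fun i => by simp [bv]
    refine ⟨?_, ?_, fun i hi => ⟨?_, ?_⟩⟩
    · rw [e1, abs_neg]; exact hre j
    · rw [e2]; exact hre j
    · rw [e1, abs_neg]; exact hs2 i hi
    · rw [e2]; exact hs2 i hi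
  have hZs : ∀ i, ‖Z1 (s i)‖ ≤ (C2 + 1) * (1 + Real.log T) ^ 4 := by
    intro i
    have h1p : (1:ℝ) ≤ (1 + Real.log T) ^ 4 := one_le_pow₀ (by linarith)
    by_cases h : s i = 0
    · rw [h]
      have : Z1 0 = 1 / 2 := by simp [Z1]
      rw [this]
      have h5 : ‖(1 / 2 : ℂ)‖ = 1 / 2 := by norm_num
      rw [h5]
      nlinarith
    · have : Z1 (s i) = s i * riemannZeta (1 + 2 * s i) := by
        rw [Z1, Function.update_of_ne h]
      rw [this]
      have h5 := abs_le.1 (hre i)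
      refine (hZ (s i) (by linarith) (by linarith)).trans ?_
      have h6 := hs1 i
      have h7 : (1 + |(s i).im|) ^ 4 ≤ (1 + Real.log T) ^ 4 :=
        pow_le_pow_left₀ (by positivity) (by linarith) 4
      calc C2 * (1 + |(s i).im|) ^ 4 ≤ C2 * (1 + Real.log T) ^ 4 := by gcongr
        _ ≤ _ := by nlinarith
  set M : ℝ := (C3 + 1) * (2 * T) ^ (3 * η) with hM
  have hM1 : 1 ≤ M := by
    have : (1:ℝ) ≤ (2 * T) ^ (3 * η) := Real.one_le_rpow (by linarith) (by positivity)
    nlinarith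
  set g : Fin (n + 1) → ℝ → ℝ := fun l => gg (1 + (s j).re + (s l).re) ((s j).im + (s l).im) (2 * T)
    with hg
  have hgi : ∀ l, Integrable (g l) := fun l => gg_int _ _ _
  have hgI : ∀ l ∈ Finset.univ.erase j, ∫ v, g l v ≤ 2 * (C4 * (2 * T) ^ (1 + η)) := by
    intro l hl
    have hlj : l ≠ j := by simpa using hl
    rw [hg]
    simp only
    rw [gg_integral, ph_le _ _ (by linarith)]
    have h5 := abs_le.1 (hre j)
    have h6 := abs_le.1 (hs2 l hlj)
    have h7 := hL (1 + (s j).re + (s l).re) (2 * T) (by linarith) (by linarith) (by linarith)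
    push_cast at h7 ⊢
    linarith
  -- pointwise bound
  have hpt : ∀ c ∈ Gd n a T, ‖Ps c s‖ ≤ C1 * ((C2 + 1) * (1 + Real.log T) ^ 4) ^ (n + 1) *
      (M ^ (n + 1)) ^ n * ∏ l ∈ Finset.univ.erase j, g l (cc c j - cc c l) := by
    intro c hc
    have hsep : ∀ i l : Fin (n + 1), i ≠ l → ∀ y : ℝ, |y| ≤ 2 * Real.log T →
        1 ≤ |y + (cc c i - cc c l)| ∧ |y + (cc c i - cc c l)| ≤ 2 * T := by
      intro i l h y hy
      obtain ⟨h5, h6⟩ := cc_sep ha0 hc i l h
      constructor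
      · have h7 := abs_sub_abs_le_abs_sub (cc c i - cc c l) (-y)
        rw [abs_neg, sub_neg_eq_add, add_comm (cc c i - cc c l) y] at h7
        linarith
      · have h7 := abs_add_le y (cc c i - cc c l)
        linarith
    have hy : ∀ i l : Fin (n + 1), |(s i).im + (s l).im| ≤ 2 * Real.log T := by
      intro i l
      have h7 := abs_add_le (s i).im (s l).im
      linarith [hs1 i, hs1 l]
    have e0 : ∀ i l : Fin (n + 1), (1 + s i + s l + I * (cc c i - cc c l) : ℂ) =
        ((1 + (s i).re + (s l).re : ℝ) : ℂ) +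
          I * (((s i).im + (s l).im + (cc c i - cc c l) : ℝ) : ℂ) := by
      intro i l
      apply Complex.ext <;> simp
    have hpair : ∏ i, ∏ l ∈ Finset.univ.erase i,
        ‖riemannZeta (1 + s i + s l + I * (cc c i - cc c l))‖ ≤
        (M ^ (n + 1)) ^ n * ∏ l ∈ Finset.univ.erase j, g l (cc c j - cc c l) := by
      refine pair_prod j (fun i l => ‖riemannZeta (1 + s i + s l + I * (cc c i - cc c l))‖)
        (fun l => g l (cc c j - cc c l)) M hM1 (fun _ _ => norm_nonneg _) ?_ ?_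
      · intro i l hi hl hil
        have h5 := hsep i l hil _ (hy i l)
        have him : (1 + s i + s l + I * (cc c i - cc c l) : ℂ).im =
            (s i).im + (s l).im + (cc c i - cc c l) := by rw [e0]; simp
        have hrr : (1 + s i + s l + I * (cc c i - cc c l) : ℂ).re = 1 + (s i).re + (s l).re := by
          rw [e0]; simp
        have h6 := hP (1 + s i + s l + I * (cc c i - cc c l)) (by
          rw [hrr]
          linarith [(abs_le.1 (hs2 i hi)).1, (abs_le.1 (hs2 l hl)).1]) (by rw [him]; exact h5.1)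
        refine h6.trans ?_
        rw [him, hM]
        have h7 : |(s i).im + (s l).im + (cc c i - cc c l)| ^ (3 * η) ≤ (2 * T) ^ (3 * η) :=
          Real.rpow_le_rpow (abs_nonneg _) h5.2 (by positivity)
        have h8 : (0:ℝ) ≤ (2 * T) ^ (3 * η) := by positivity
        calc C3 * |(s i).im + (s l).im + (cc c i - cc c l)| ^ (3 * η) ≤ C3 * (2 * T) ^ (3 * η) := by
              gcongr
          _ ≤ _ := by nlinarith
      · intro l hl
        have h5 := hsep j l hl.symm _ (hy j l)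
        have h6 := hsep l j hl _ (hy j l)
        have e1 : (s j).im + (s l).im + (cc c l - cc c j) =
            (s j).im + (s l).im - (cc c j - cc c l) := by ring
        rw [e1] at h6
        have h7 := le_gg (1 + (s j).re + (s l).re) ((s j).im + (s l).im) (2 * T) (cc c j - cc c l)
          h5.1 h5.2 h6.1 h6.2
        have e2 : (1 + s l + s j + I * (cc c l - cc c j) : ℂ) =
            ((1 + (s j).re + (s l).re : ℝ) : ℂ) +
              I * (((s j).im + (s l).im - (cc c j - cc c l) : ℝ) : ℂ) := by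
          apply Complex.ext <;> simp <;> ring
        rw [e0 j l, e2]
        exact h7
    unfold Ps
    rw [norm_mul, norm_mul, norm_prod, norm_prod]
    have h9 : ∏ i, ‖Z1 (s i)‖ ≤ ((C2 + 1) * (1 + Real.log T) ^ 4) ^ (n + 1) := by
      calc ∏ i, ‖Z1 (s i)‖ ≤ ∏ _i : Fin (n + 1), ((C2 + 1) * (1 + Real.log T) ^ 4) :=
            Finset.prod_le_prod (fun i _ => norm_nonneg _) (fun i _ => hZs i)
        _ = _ := by rw [Finset.prod_const, Finset.card_univ, Fintype.card_fin]
    have h10 : ∏ i, ‖∏ l ∈ Finset.univ.erase i, riemannZeta (1 + s i + s l + I * (cc c i - cc c l))‖ =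
        ∏ i, ∏ l ∈ Finset.univ.erase i, ‖riemannZeta (1 + s i + s l + I * (cc c i - cc c l))‖ := by
      refine Finset.prod_congr rfl fun i _ => ?_
      rw [norm_prod]
    rw [h10]
    have h11 : 0 ≤ ∏ i, ‖Z1 (s i)‖ := Finset.prod_nonneg fun _ _ => norm_nonneg _
    have h12 : 0 ≤ ∏ i, ∏ l ∈ Finset.univ.erase i,
        ‖riemannZeta (1 + s i + s l + I * (cc c i - cc c l))‖ :=
      Finset.prod_nonneg fun _ _ => Finset.prod_nonneg fun _ _ => norm_nonneg _
    calc _ ≤ C1 * ((C2 + 1) * (1 + Real.log T) ^ 4) ^ (n + 1) *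
          ((M ^ (n + 1)) ^ n * ∏ l ∈ Finset.univ.erase j, g l (cc c j - cc c l)) := by
          refine mul_le_mul (mul_le_mul (hFs c) h9 h11 hC1.le) hpair h12 (by positivity)
      _ = _ := by ring
  obtain ⟨hint, hval⟩ := int_prod j g hgi
  set W : ℝ := C1 * ((C2 + 1) * (1 + Real.log T) ^ 4) ^ (n + 1) * (M ^ (n + 1)) ^ n with hW
  have hM0 : 0 ≤ M := by linarith
  have hW0 : 0 ≤ W := by rw [hW]; positivity
  have hG0 : ∀ c : Fin n → ℝ, 0 ≤ W * ∏ l ∈ Finset.univ.erase j, g l (cc c j - cc c l) := fun c =>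
    mul_nonneg hW0 (Finset.prod_nonneg fun l _ => gg_nonneg _ _ _ _)
  have hstep1 : ∫ c in Gd n a T, ‖Ps c s‖ ≤
      ∫ c in Gd n a T, W * ∏ l ∈ Finset.univ.erase j, g l (cc c j - cc c l) := by
    refine integral_mono_of_nonneg (Eventually.of_forall fun _ => norm_nonneg _)
      ((hint.const_mul W).integrableOn) ?_
    exact ae_restrict_of_forall_mem (Gd_meas n a T) hpt
  have hstep2 : ∫ c in Gd n a T, W * ∏ l ∈ Finset.univ.erase j, g l (cc c j - cc c l) ≤
      ∫ c, W * ∏ l ∈ Finset.univ.erase j, g l (cc c j - cc c l) :=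
    setIntegral_le_integral (hint.const_mul W) (Eventually.of_forall hG0)
  have hstep3 : ∏ l ∈ Finset.univ.erase j, ∫ v, g l v ≤ (2 * (C4 * (2 * T) ^ (1 + η))) ^ n := by
    calc ∏ l ∈ Finset.univ.erase j, ∫ v, g l v
        ≤ ∏ _l ∈ Finset.univ.erase j, (2 * (C4 * (2 * T) ^ (1 + η))) :=
          Finset.prod_le_prod (fun l _ => integral_nonneg fun v => gg_nonneg _ _ _ _) hgI
      _ = _ := by
          rw [Finset.prod_const, Finset.card_erase_of_mem (Finset.mem_univ j), Finset.card_univ,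
            Fintype.card_fin, Nat.add_sub_cancel]
  have hstep4 : ∫ c in Gd n a T, ‖Ps c s‖ ≤ W * (2 * (C4 * (2 * T) ^ (1 + η))) ^ n := by
    refine (hstep1.trans hstep2).trans ?_
    rw [integral_const_mul, hval]
    exact mul_le_mul_of_nonneg_left hstep3 hW0
  refine hstep4.trans ?_
  have q1 : (2 * T) ^ (3 * η) ≤ 2 * T ^ (3 * η) := by
    rw [Real.mul_rpow (by norm_num) hTpos.le]
    refine mul_le_mul_of_nonneg_right ?_ (by positivity)
    calc (2:ℝ) ^ (3 * η) ≤ (2:ℝ) ^ (1:ℝ) :=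
          Real.rpow_le_rpow_of_exponent_le (by norm_num) (by linarith)
      _ = 2 := Real.rpow_one 2
  have q2 : (2 * T) ^ (1 + η) ≤ 4 * T ^ (1 + η) := by
    rw [Real.mul_rpow (by norm_num) hTpos.le]
    refine mul_le_mul_of_nonneg_right ?_ (by positivity)
    calc (2:ℝ) ^ (1 + η) ≤ (2:ℝ) ^ (2:ℝ) :=
          Real.rpow_le_rpow_of_exponent_le (by norm_num) (by linarith)
      _ = 4 := by norm_num
  have q3 : M ≤ (2 * (C3 + 1)) * T ^ (3 * η) := by
    rw [hM]
    calc (C3 + 1) * (2 * T) ^ (3 * η) ≤ (C3 + 1) * (2 * T ^ (3 * η)) := by gcongr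
      _ = _ := by ring
  have q4 : 2 * (C4 * (2 * T) ^ (1 + η)) ≤ (8 * C4) * T ^ (1 + η) := by
    calc 2 * (C4 * (2 * T) ^ (1 + η)) ≤ 2 * (C4 * (4 * T ^ (1 + η))) := by gcongr
      _ = _ := by ring
  have r1 : (M ^ (n + 1)) ^ n ≤ (2 * (C3 + 1)) ^ ((n + 1) * n) *
      T ^ (3 * η * (((n : ℝ) + 1) * n)) := by
    rw [← pow_mul]
    calc M ^ ((n + 1) * n) ≤ ((2 * (C3 + 1)) * T ^ (3 * η)) ^ ((n + 1) * n) :=
          pow_le_pow_left₀ hM0 q3 _
      _ = (2 * (C3 + 1)) ^ ((n + 1) * n) * (T ^ (3 * η)) ^ ((n + 1) * n) := by rw [mul_pow]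
      _ = _ := by
          rw [← Real.rpow_natCast (T ^ (3 * η)), ← Real.rpow_mul hTpos.le]
          push_cast
          rfl
  have r2 : (2 * (C4 * (2 * T) ^ (1 + η))) ^ n ≤ (8 * C4) ^ n * T ^ ((1 + η) * (n : ℝ)) := by
    calc (2 * (C4 * (2 * T) ^ (1 + η))) ^ n ≤ ((8 * C4) * T ^ (1 + η)) ^ n :=
          pow_le_pow_left₀ (by positivity) q4 _
      _ = (8 * C4) ^ n * (T ^ (1 + η)) ^ n := by rw [mul_pow]
      _ = _ := by rw [← Real.rpow_natCast (T ^ (1 + η)), ← Real.rpow_mul hTpos.le]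
  calc W * (2 * (C4 * (2 * T) ^ (1 + η))) ^ n
      ≤ (C1 * ((C2 + 1) * (1 + Real.log T) ^ 4) ^ (n + 1) * ((2 * (C3 + 1)) ^ ((n + 1) * n) *
        T ^ (3 * η * (((n : ℝ) + 1) * n)))) * ((8 * C4) ^ n * T ^ ((1 + η) * (n : ℝ))) := by
        rw [hW]
        gcongr
    _ = ((C1 * (C2 + 1) ^ (n + 1) * (2 * (C3 + 1)) ^ ((n + 1) * n) * (8 * C4) ^ n) *
        (1 + Real.log T) ^ (4 * (n + 1))) *
        (T ^ (3 * η * (((n : ℝ) + 1) * n)) * T ^ ((1 + η) * (n : ℝ))) := by
        rw [mul_pow, ← pow_mul]; ring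
    _ ≤ T ^ η * (T ^ (3 * η * (((n : ℝ) + 1) * n)) * T ^ ((1 + η) * (n : ℝ))) := by
        gcongr
    _ = T ^ ((n : ℝ) + (3 * (((n : ℝ) + 1) * n) + n + 1) * η) := by
        rw [← Real.rpow_add hTpos, ← Real.rpow_add hTpos]
        congr 1
        ring

end

end Pool.Agent.Y258.GPMB
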